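import Pool.Agent.W47.TM.Defs
set_option autoImplicit false

/-!
# TM-REMC: the analytic form of the remainder
-/

namespace Pool.Agent.W131.TM

open Finset Polynomial
open Pool.Agent.W47.TM

theorem hexp (x : ℂ) : HasSum (fun i : ℕ => x ^ i / (i.factorial : ℂ)) (Complex.exp x) := by
  rw [Complex.exp_eq_exp_ℂ]
  exact NormedSpace.expSeries_div_hasSum_exp x

theorem hexpR (x : ℝ) : HasSum (fun i : ℕ => x ^ i / (i.factorial : ℝ)) (Real.exp x) := by
  rw [Real.exp_eq_exp_ℝ]
  exact NormedSpace.expSeries_div_hasSum_exp x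

/-- one term -/
theorem hterm (q : ℚ) (j k : ℕ) (z : ℂ) :
    HasSum (fun m : ℕ => (((if j ≤ m then q * ((k : ℚ) ^ (m - j) / ((m - j).factorial : ℚ))
      else 0 : ℚ)) : ℂ) * z ^ m) ((q : ℂ) * z ^ j * Complex.exp ((k : ℂ) * z)) := by
  have h := (hexp ((k : ℂ) * z)).mul_left ((q : ℂ) * z ^ j)
  rw [← (add_left_injective j).hasSum_iff]
  · convert! h using 1
    funext i
    simp only [Function.comp_apply]
    rw [if_pos (Nat.le_add_left j i), Nat.add_sub_cancel]
    push_cast
    rw [pow_add, mul_pow]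
    ring
  · intro m hm
    rw [if_neg]
    · simp
    · intro hj
      exact hm ⟨m - j, Nat.sub_add_cancel hj⟩

theorem hsum (n N h : ℕ) (z : ℂ) :
    HasSum (fun m : ℕ => ((rc n N h m : ℚ) : ℂ) * z ^ m)
      (∑ k ∈ range (n + 1), aeval z (A n N h k) * Complex.exp ((k : ℂ) * z)) := by
  have h1 : ∀ k ∈ range (n + 1), HasSum (fun m : ℕ => ∑ j ∈ range (ex N h k),
      (((if j ≤ m then (co n N h k j / (j.factorial : ℚ)) *
        ((k : ℚ) ^ (m - j) / ((m - j).factorial : ℚ)) else 0 : ℚ)) : ℂ) * z ^ m)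
      (aeval z (A n N h k) * Complex.exp ((k : ℂ) * z)) := by
    intro k _
    have e : aeval z (A n N h k) * Complex.exp ((k : ℂ) * z) =
        ∑ j ∈ range (ex N h k), (((co n N h k j / (j.factorial : ℚ) : ℚ)) : ℂ) * z ^ j *
          Complex.exp ((k : ℂ) * z) := by
      rw [A, map_sum, Finset.sum_mul]
      refine Finset.sum_congr rfl fun j _ => ?_
      rw [map_mul, map_pow, aeval_X, aeval_C]
      rfl
    rw [e]
    exact hasSum_sum fun j _ => hterm _ j k z
  have h2 := hasSum_sum h1
  convert! h2 using 1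
  funext m
  rw [rc]
  push_cast
  rw [Finset.sum_mul]
  refine Finset.sum_congr rfl fun k _ => ?_
  rw [Finset.sum_mul]

theorem t3 : Pool.Agent.W47.TM.S_T3 := by
  intro hREM n N h hN hh z
  obtain ⟨r1, r2⟩ := hREM n N h hN hh
  set M := (n + 1) * N with hM
  have hg : HasSum (fun m : ℕ => if M ≤ m then
      (m.choose M : ℝ) * (n : ℝ) ^ (m - M) / (m.factorial : ℝ) * ‖z‖ ^ m else 0)
      (‖z‖ ^ M / (M.factorial : ℝ) * Real.exp (n * ‖z‖)) := by
    have h' := (hexpR (n * ‖z‖)).mul_left (‖z‖ ^ M / (M.factorial : ℝ))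
    rw [← (add_left_injective M).hasSum_iff]
    · convert! h' using 1
      funext i
      simp only [Function.comp_apply]
      rw [if_pos (Nat.le_add_left M i), Nat.add_sub_cancel]
      have hc : ((i + M).choose M : ℝ) * (M.factorial : ℝ) * (i.factorial : ℝ) =
          ((i + M).factorial : ℝ) := by
        have := Nat.choose_mul_factorial_mul_factorial (Nat.le_add_left M i)
        rw [Nat.add_sub_cancel] at this
        exact_mod_cast this
      have h1 : ((i + M).factorial : ℝ) ≠ 0 := by positivity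
      have h2 : (M.factorial : ℝ) ≠ 0 := by positivity
      have h3 : (i.factorial : ℝ) ≠ 0 := by positivity
      rw [pow_add, mul_pow, ← hc]
      have h4 : ((i + M).choose M : ℝ) ≠ 0 := by
        intro h0
        rw [h0] at hc
        apply h1
        rw [← hc]; ring
      field_simp
    · intro m hm
      rw [if_neg]
      intro hj
      exact hm ⟨m - M, Nat.sub_add_cancel hj⟩
  refine (hsum n N h z).norm_le_of_bounded hg fun m => ?_
  rw [norm_mul, norm_pow]
  have hn : ‖((rc n N h m : ℚ) : ℂ)‖ = |((rc n N h m : ℚ) : ℝ)| := by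
    rw [← Complex.ofReal_ratCast, Complex.norm_real, Real.norm_eq_abs]
  rw [hn]
  by_cases hm : M ≤ m
  · rw [if_pos hm]
    obtain ⟨a, b⟩ := r2 m hm
    have a' : (0:ℝ) ≤ ((rc n N h m : ℚ) : ℝ) := by exact_mod_cast a
    have b' : ((rc n N h m : ℚ) : ℝ) ≤
        (m.choose M : ℝ) * (n : ℝ) ^ (m - M) / (m.factorial : ℝ) := by
      have := (Rat.cast_le (K := ℝ)).2 b
      push_cast at this
      exact this
    rw [abs_of_nonneg a']
    exact mul_le_mul_of_nonneg_right b' (by positivity)
  · rw [if_neg hm, r1 m (by omega)]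
    simp

end Pool.Agent.W131.TM
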